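import Pool.Agent.Q171.Lem.Join
import Pool.Agent.Q171.Lem.Circle

set_option autoImplicit false

open Metric Set Filter Topology

/-!
# The Lempert function of a smooth bounded pseudoconvex domain need not be quasi-triangular
-/

namespace Pool.Agent.Results.MP_68919f_an.NoQuasiTriangle

/-- `ℂ^n` with its Euclidean norm -/
abbrev Cn (n : ℕ) : Type := EuclideanSpace ℂ (Fin n)

/-- the Lempert function of `D` (with `|l|`) -/
noncomputable def lempert {n : ℕ} (D : Set (Cn n)) (z w : Cn n) : ℝ :=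
  sInf {r | ∃ (f : ℂ → Cn n) (l : ℂ), DifferentiableOn ℂ f (ball 0 1) ∧
    MapsTo f (ball 0 1) D ∧ ‖l‖ < 1 ∧ f 0 = z ∧ f l = w ∧ r = ‖l‖}

/-- near every boundary point `p` the set `D` is `{ρ < 0}` with `ρ` real-analytic and
`dρ ≠ 0` on the boundary -/
def AnalyticBoundary {n : ℕ} (D : Set (Cn n)) : Prop :=
  ∀ p ∈ frontier D, ∃ (U : Set (Cn n)) (ρ : Cn n → ℝ), IsOpen U ∧ p ∈ U ∧
    ContDiffOn ℝ ⊤ ρ U ∧ (∀ x ∈ frontier D ∩ U, fderiv ℝ ρ x ≠ 0) ∧ D ∩ U = {x ∈ U | ρ x < 0}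

/-- `D` is pseudoconvex: it has a continuous plurisubharmonic exhaustion function `u`, that is
`u` satisfies the sub-mean value inequality on the closed affine discs contained in `D`, and its
sublevel sets in `D` are compact. -/
def Pseudoconvex {n : ℕ} (D : Set (Cn n)) : Prop :=
  ∃ u : Cn n → ℝ, ContinuousOn u D ∧
    (∀ a b : Cn n, (∀ ζ : ℂ, ‖ζ‖ ≤ 1 → a + ζ • b ∈ D) →
      u a ≤ (1 / (2 * Real.pi)) *
        ∫ θ in (0 : ℝ)..(2 * Real.pi), u (a + Complex.exp (θ * Complex.I) • b)) ∧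
    ∀ c : ℝ, IsCompact {x ∈ D | u x ≤ c}

/-- the defining function -/
noncomputable def rho (m : ℕ) (z : Cn (m + 3)) : ℝ :=
  ‖z 0 - 1‖ ^ 2 + ‖z 1 * z 2‖ ^ 2 + ‖z 1‖ ^ 6 + ‖z 2‖ ^ 6 + ∑ j : Fin m, ‖z (j.addNat 3)‖ ^ 2 - 1

/-- the domain `|z₁-1|² + |z₂z₃|² + |z₂|⁶ + |z₃|⁶ + |z₄|² + ... + |zₙ|² < 1`, `n = m + 3` -/
def Dom (m : ℕ) : Set (Cn (m + 3)) := {z | rho m z < 0}

open Pool.Agent.Q171.Lem

theorem rho_contDiff (m : ℕ) : ContDiff ℝ ⊤ (rho m) := by
  have key : ∀ g : Cn (m + 3) → ℂ, ContDiff ℝ ⊤ g → ContDiff ℝ ⊤ (fun z => ‖g z‖ ^ 2) := fun g hg =>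
    (contDiff_norm_sq ℂ).comp hg
  have e : rho m = fun z => ‖z 0 - 1‖ ^ 2 + ‖z 1 * z 2‖ ^ 2 + ‖z 1 ^ 3‖ ^ 2 + ‖z 2 ^ 3‖ ^ 2 +
      ∑ j : Fin m, ‖z (j.addNat 3)‖ ^ 2 - 1 := by
    funext z
    simp only [rho, norm_pow]
    ring
  rw [e]
  refine ContDiff.sub (ContDiff.add (ContDiff.add (ContDiff.add (ContDiff.add ?_ ?_) ?_) ?_) ?_)
    contDiff_const
  · exact key _ (by fun_prop)
  · exact key _ (by fun_prop)
  · exact key _ (by fun_prop)
  · exact key _ (by fun_prop)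
  · exact ContDiff.sum fun j _ => key _ (by fun_prop)

theorem rho_continuous (m : ℕ) : Continuous (rho m) := (rho_contDiff m).continuous

theorem isOpen_dom (m : ℕ) : IsOpen (Dom m) := isOpen_lt (rho_continuous m) continuous_const

/-- the centre -/
noncomputable def ctr (m : ℕ) : Cn (m + 3) := EuclideanSpace.single 0 1

theorem one_ne_zero' (m : ℕ) : (1 : Fin (m + 3)) ≠ 0 := by
  intro h; have := congrArg Fin.val h; simp at this

theorem two_ne_zero' (m : ℕ) : (2 : Fin (m + 3)) ≠ 0 := by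
  intro h; have := congrArg Fin.val h; simp at this
  rw [Nat.mod_eq_of_lt (by omega)] at this; omega

theorem one_ne_two' (m : ℕ) : (1 : Fin (m + 3)) ≠ 2 := by
  intro h; have := congrArg Fin.val h; simp at this
  rw [Nat.mod_eq_of_lt (by omega)] at this; omega

theorem addNat_ne_zero' (m : ℕ) (j : Fin m) : j.addNat 3 ≠ 0 := by
  intro h; have := congrArg Fin.val h; simp at this

theorem addNat_ne_one' (m : ℕ) (j : Fin m) : j.addNat 3 ≠ 1 := by
  intro h; have := congrArg Fin.val h; simp at this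

theorem addNat_ne_two' (m : ℕ) (j : Fin m) : j.addNat 3 ≠ 2 := by
  intro h; have := congrArg Fin.val h; simp at this
  rw [Nat.mod_eq_of_lt (by omega)] at this; omega

theorem rho_ray (m : ℕ) (x : Cn (m + 3)) (s : ℝ) :
    rho m (ctr m + s • (x - ctr m)) =
      s ^ 2 * (‖x 0 - 1‖ ^ 2 + ∑ j : Fin m, ‖x (j.addNat 3)‖ ^ 2) + s ^ 4 * ‖x 1 * x 2‖ ^ 2 +
        s ^ 6 * (‖x 1‖ ^ 6 + ‖x 2‖ ^ 6) - 1 := by
  have h1 : (ctr m + s • (x - ctr m)) 0 - 1 = s • (x 0 - 1) := by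
    simp [ctr]
  have h2 : (ctr m + s • (x - ctr m)) 1 = s • x 1 := by
    simp [ctr, one_ne_zero' m]
  have h3 : (ctr m + s • (x - ctr m)) 2 = s • x 2 := by
    simp [ctr, two_ne_zero' m]
  have h4 : ∀ j : Fin m, (ctr m + s • (x - ctr m)) (j.addNat 3) = s • x (j.addNat 3) := by
    intro j
    simp [ctr, addNat_ne_zero' m j]
  unfold rho
  rw [h1, h2, h3]
  simp only [h4, norm_smul, norm_mul, mul_pow, Real.norm_eq_abs, sq_abs]
  have e6 : |s| ^ 6 = s ^ 6 := by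
    rw [show (6 : ℕ) = 2 * 3 from rfl, pow_mul, pow_mul, sq_abs]
  rw [e6, ← Finset.mul_sum]
  ring

theorem rho_parts (m : ℕ) (x : Cn (m + 3)) :
    rho m x = (‖x 0 - 1‖ ^ 2 + ∑ j : Fin m, ‖x (j.addNat 3)‖ ^ 2) + ‖x 1 * x 2‖ ^ 2 +
        (‖x 1‖ ^ 6 + ‖x 2‖ ^ 6) - 1 := by
  unfold rho; ring

theorem connected_dom (m : ℕ) : IsConnected (Dom m) := by
  have hc : ctr m ∈ Dom m := by
    have := rho_ray m (ctr m) 0
    show rho m (ctr m) < 0
    simp at this
    rw [this]; norm_num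
  apply IsPathConnected.isConnected
  apply StarConvex.isPathConnected (a := ctr m) _ hc
  rw [starConvex_iff_segment_subset]
  intro y hy
  rw [segment_eq_image']
  rintro _ ⟨s, ⟨hs0, hs1⟩, rfl⟩
  show rho m _ < 0
  have hy' : rho m y < 0 := hy
  rw [rho_ray]
  rw [rho_parts] at hy'
  have hA : 0 ≤ ‖y 0 - 1‖ ^ 2 + ∑ j : Fin m, ‖y (j.addNat 3)‖ ^ 2 := by positivity
  have hB : 0 ≤ ‖y 1 * y 2‖ ^ 2 := by positivity
  have hC : 0 ≤ ‖y 1‖ ^ 6 + ‖y 2‖ ^ 6 := by positivity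
  have h2 : s ^ 2 ≤ 1 := pow_le_one₀ hs0 hs1
  have h4 : s ^ 4 ≤ 1 := pow_le_one₀ hs0 hs1
  have h6 : s ^ 6 ≤ 1 := pow_le_one₀ hs0 hs1
  nlinarith [mul_le_mul_of_nonneg_right h2 hA, mul_le_mul_of_nonneg_right h4 hB,
    mul_le_mul_of_nonneg_right h6 hC]

theorem frontier_rho (m : ℕ) {x : Cn (m + 3)} (hx : x ∈ frontier (Dom m)) : rho m x = 0 := by
  have h1 : x ∉ Dom m := by
    have := hx.2
    rwa [(isOpen_dom m).interior_eq] at this
  have h2 : rho m x ≤ 0 := by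
    have hsub : Dom m ⊆ {x | rho m x ≤ 0} := fun y hy =>
      show rho m y ≤ 0 from le_of_lt (show rho m y < 0 from hy)
    exact closure_minimal hsub (isClosed_le (rho_continuous m) continuous_const) hx.1
  exact le_antisymm h2 (not_lt.mp h1)

theorem boundary_dom (m : ℕ) : AnalyticBoundary (Dom m) := by
  intro p _
  refine ⟨univ, rho m, isOpen_univ, mem_univ _, (rho_contDiff m).contDiffOn, ?_, ?_⟩
  · rintro x ⟨hx, _⟩ h0
    have hr := frontier_rho m hx
    rw [rho_parts] at hr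
    set A := ‖x 0 - 1‖ ^ 2 + ∑ j : Fin m, ‖x (j.addNat 3)‖ ^ 2 with hAd
    set B := ‖x 1 * x 2‖ ^ 2 with hBd
    set C := ‖x 1‖ ^ 6 + ‖x 2‖ ^ 6 with hCd
    have hA : 0 ≤ A := by positivity
    have hB : 0 ≤ B := by positivity
    have hC : 0 ≤ C := by positivity
    have h1 : HasDerivAt (fun s : ℝ => rho m (ctr m + s • (x - ctr m)))
        (fderiv ℝ (rho m) x (x - ctr m)) 1 := by
      have h2 : HasDerivAt (fun s : ℝ => ctr m + s • (x - ctr m)) (x - ctr m) 1 := by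
        simpa using ((hasDerivAt_id (1 : ℝ)).smul_const (x - ctr m)).const_add (ctr m)
      have h3 : HasFDerivAt (rho m) (fderiv ℝ (rho m) x) (ctr m + (1 : ℝ) • (x - ctr m)) := by
        rw [one_smul, add_sub_cancel]
        exact (((rho_contDiff m).differentiable (by simp)) x).hasFDerivAt
      exact h3.comp_hasDerivAt 1 h2
    have h4 : HasDerivAt (fun s : ℝ => rho m (ctr m + s • (x - ctr m)))
        (2 * A + 4 * B + 6 * C) 1 := by
      have : (fun s : ℝ => rho m (ctr m + s • (x - ctr m))) =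
          fun s : ℝ => s ^ 2 * A + s ^ 4 * B + s ^ 6 * C - 1 := funext fun s => rho_ray m x s
      rw [this]
      have h5 := ((((hasDerivAt_pow 2 (1 : ℝ)).mul_const A).add
        ((hasDerivAt_pow 4 (1 : ℝ)).mul_const B)).add
        ((hasDerivAt_pow 6 (1 : ℝ)).mul_const C)).sub_const 1
      simpa using h5
    have h6 := h1.unique h4
    rw [h0, zero_apply] at h6
    linarith
  · ext x; simp [Dom]

theorem coord_bound {m : ℕ} {x : Cn (m + 3)} (hx : x ∈ Dom m) :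
    ‖x 0‖ ≤ 2 ∧ ‖x 1‖ ≤ 1 ∧ ‖x 2‖ ≤ 1 ∧ ∀ j : Fin m, ‖x (j.addNat 3)‖ ≤ 1 := by
  have hx' : rho m x < 0 := hx
  rw [rho_parts] at hx'
  have hB : 0 ≤ ‖x 1 * x 2‖ ^ 2 := by positivity
  have hs : 0 ≤ ∑ j : Fin m, ‖x (j.addNat 3)‖ ^ 2 := by positivity
  have h1 : 0 ≤ ‖x 1‖ ^ 6 := by positivity
  have h2 : 0 ≤ ‖x 2‖ ^ 6 := by positivity
  have h0 : 0 ≤ ‖x 0 - 1‖ ^ 2 := by positivity
  refine ⟨?_, ?_, ?_, ?_⟩
  · have : ‖x 0 - 1‖ ≤ 1 := by
      by_contra hcon; push Not at hcon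
      nlinarith
    calc ‖x 0‖ = ‖(x 0 - 1) + 1‖ := by rw [sub_add_cancel]
      _ ≤ ‖x 0 - 1‖ + ‖(1 : ℂ)‖ := norm_add_le _ _
      _ ≤ 2 := by rw [norm_one]; linarith
  · by_contra hcon; push Not at hcon
    have := one_lt_pow₀ hcon (n := 6) (by norm_num)
    linarith
  · by_contra hcon; push Not at hcon
    have := one_lt_pow₀ hcon (n := 6) (by norm_num)
    linarith
  · intro j
    by_contra hcon; push Not at hcon
    have h3 := one_lt_pow₀ hcon (n := 2) (by norm_num)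
    have h4 : ‖x (j.addNat 3)‖ ^ 2 ≤ ∑ j : Fin m, ‖x (j.addNat 3)‖ ^ 2 :=
      Finset.single_le_sum (f := fun j : Fin m => ‖x (j.addNat 3)‖ ^ 2)
        (fun _ _ => by positivity) (Finset.mem_univ j)
    linarith

theorem fin_cases' {m : ℕ} (i : Fin (m + 3)) : i = 0 ∨ i = 1 ∨ i = 2 ∨ ∃ j : Fin m, i = j.addNat 3 := by
  obtain ⟨v, hv⟩ := i
  rcases Nat.lt_or_ge v 3 with h | h
  · interval_cases v
    · left; rfl
    · right; left; ext; simp
    · right; right; left; ext; simp; rw [Nat.mod_eq_of_lt (by omega)]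
  · right; right; right
    exact ⟨⟨v - 3, by omega⟩, by ext; simp; omega⟩

theorem bounded_dom (m : ℕ) : Bornology.IsBounded (Dom m) := by
  rw [isBounded_iff_forall_norm_le]
  refine ⟨Real.sqrt (∑ _i : Fin (m + 3), (2 : ℝ) ^ 2), fun x hx => ?_⟩
  rw [EuclideanSpace.norm_eq]
  apply Real.sqrt_le_sqrt
  apply Finset.sum_le_sum
  intro i _
  obtain ⟨h0, h1, h2, h3⟩ := coord_bound hx
  have : ‖x i‖ ≤ 2 := by
    rcases fin_cases' i with h | h | h | ⟨j, h⟩
    · rw [h]; exact h0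
    · rw [h]; linarith
    · rw [h]; linarith
    · rw [h]; linarith [h3 j]
  gcongr

theorem pow_pos_of_neg {M : ℝ} (h : M < 0) : 0 < M ^ 2 := by nlinarith

theorem two_pi_cancel (x : ℝ) : 2 * Real.pi * (1 / (2 * Real.pi) * x) = x := by
  have := Real.pi_pos
  rw [← mul_assoc, mul_one_div_cancel (by positivity), one_mul]

/-- the square of the modulus of an entire function is sub-mean -/
theorem sq_mean {g : ℂ → ℂ} (hg : Differentiable ℂ g) :
    ‖g 0‖ ^ 2 ≤ (1 / (2 * Real.pi)) *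
      ∫ θ in (0 : ℝ)..(2 * Real.pi), ‖g (Complex.exp (θ * Complex.I))‖ ^ 2 := by
  have h := cauchy_mean_zero (G := fun z => g z ^ 2) one_pos (hg.pow 2).diffContOnCl
  simpa [norm_pow] using h

theorem rho_mean (m : ℕ) (a b : Cn (m + 3)) :
    rho m a ≤ (1 / (2 * Real.pi)) *
      ∫ θ in (0 : ℝ)..(2 * Real.pi), rho m (a + Complex.exp (θ * Complex.I) • b) := by
  have hpi := Real.pi_pos
  have key : ∀ g : ℂ → ℂ, Differentiable ℂ g → ∃ c : ℝ, ‖g 0‖ ^ 2 ≤ c ∧
      ∫ θ in (0 : ℝ)..(2 * Real.pi), ‖g (Complex.exp (θ * Complex.I))‖ ^ 2 = 2 * Real.pi * c ∧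
      IntervalIntegrable (fun θ : ℝ => ‖g (Complex.exp (θ * Complex.I))‖ ^ 2)
        MeasureTheory.volume 0 (2 * Real.pi) := by
    intro g hg
    refine ⟨_, sq_mean hg, (two_pi_cancel _).symm, ?_⟩
    have : Continuous g := hg.continuous
    exact Continuous.intervalIntegrable (by fun_prop) _ _
  obtain ⟨c0, h0, e0, i0⟩ := key (fun ζ => (a + ζ • b) 0 - 1) (by fun_prop)
  obtain ⟨c1, h1, e1, i1⟩ := key (fun ζ => (a + ζ • b) 1 * (a + ζ • b) 2) (by fun_prop)
  obtain ⟨c2, h2, e2, i2⟩ := key (fun ζ => (a + ζ • b) 1 ^ 3) (by fun_prop)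
  obtain ⟨c3, h3, e3, i3⟩ := key (fun ζ => (a + ζ • b) 2 ^ 3) (by fun_prop)
  have hj : ∀ j : Fin m, ∃ c : ℝ, ‖(a + (0 : ℂ) • b) (j.addNat 3)‖ ^ 2 ≤ c ∧
      ∫ θ in (0 : ℝ)..(2 * Real.pi), ‖(a + Complex.exp (θ * Complex.I) • b) (j.addNat 3)‖ ^ 2
        = 2 * Real.pi * c ∧
      IntervalIntegrable (fun θ : ℝ => ‖(a + Complex.exp (θ * Complex.I) • b) (j.addNat 3)‖ ^ 2)
        MeasureTheory.volume 0 (2 * Real.pi) := fun j =>
    key (fun ζ => (a + ζ • b) (j.addNat 3)) (by fun_prop)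
  choose cj hj ej ij using hj
  have e : ∀ z, rho m z = ‖z 0 - 1‖ ^ 2 + ‖z 1 * z 2‖ ^ 2 + ‖z 1 ^ 3‖ ^ 2 + ‖z 2 ^ 3‖ ^ 2 +
      ∑ j : Fin m, ‖z (j.addNat 3)‖ ^ 2 - 1 := by
    intro z
    simp only [rho, norm_pow]
    ring
  simp only [e]
  have hint : ∫ θ in (0 : ℝ)..(2 * Real.pi),
      (‖(a + Complex.exp (θ * Complex.I) • b) 0 - 1‖ ^ 2 +
        ‖(a + Complex.exp (θ * Complex.I) • b) 1 * (a + Complex.exp (θ * Complex.I) • b) 2‖ ^ 2 +
        ‖(a + Complex.exp (θ * Complex.I) • b) 1 ^ 3‖ ^ 2 +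
        ‖(a + Complex.exp (θ * Complex.I) • b) 2 ^ 3‖ ^ 2 +
        ∑ j : Fin m, ‖(a + Complex.exp (θ * Complex.I) • b) (j.addNat 3)‖ ^ 2 - 1) =
      2 * Real.pi * (c0 + c1 + c2 + c3 + ∑ j, cj j - 1) := by
    rw [intervalIntegral.integral_sub, intervalIntegral.integral_add, intervalIntegral.integral_add,
      intervalIntegral.integral_add, intervalIntegral.integral_add, e0, e1, e2, e3,
      intervalIntegral.integral_finsetSum, intervalIntegral.integral_const]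
    · simp only [ej, ← Finset.mul_sum]
      simp
      ring
    · intro j _; exact ij j
    · exact i0
    · exact i1
    · exact i0.add i1
    · exact i2
    · exact (i0.add i1).add i2
    · exact i3
    · exact ((i0.add i1).add i2).add i3
    · have := IntervalIntegrable.sum (Finset.univ : Finset (Fin m)) (fun j _ => ij j)
      exact this.congr (by intro x _; simp)
    · have := IntervalIntegrable.sum (Finset.univ : Finset (Fin m)) (fun j _ => ij j)
      exact (((i0.add i1).add i2).add i3).add (this.congr (by intro x _; simp))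
    · exact intervalIntegrable_const
  rw [hint]
  have hs : ∑ j : Fin m, ‖(a + (0 : ℂ) • b) (j.addNat 3)‖ ^ 2 ≤ ∑ j, cj j :=
    Finset.sum_le_sum fun j _ => hj j
  simp only [zero_smul, add_zero] at h0 h1 h2 h3 hs
  have e5 : 1 / (2 * Real.pi) * (2 * Real.pi * (c0 + c1 + c2 + c3 + ∑ j, cj j - 1)) =
      c0 + c1 + c2 + c3 + ∑ j, cj j - 1 := by field_simp
  rw [e5]
  linarith

theorem pseudoconvex_dom (m : ℕ) : Pseudoconvex (Dom m) := by
  refine ⟨fun z => -(rho m z)⁻¹, ?_, ?_, ?_⟩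
  · apply ContinuousOn.neg
    apply ContinuousOn.inv₀ (rho_continuous m).continuousOn
    intro x hx
    exact ne_of_lt hx
  · intro a b hab
    have hpi := Real.pi_pos
    have hcirc : ∀ θ : ℝ, rho m (a + Complex.exp (θ * Complex.I) • b) < 0 := fun θ =>
      hab _ (Complex.norm_exp_ofReal_mul_I θ).le
    have hcont : Continuous fun θ : ℝ => rho m (a + Complex.exp (θ * Complex.I) • b) :=
      (rho_continuous m).comp (by fun_prop)
    set M := (1 / (2 * Real.pi)) *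
      ∫ θ in (0 : ℝ)..(2 * Real.pi), rho m (a + Complex.exp (θ * Complex.I) • b) with hM
    have hMa : rho m a ≤ M := rho_mean m a b
    have hMint : ∫ θ in (0 : ℝ)..(2 * Real.pi), rho m (a + Complex.exp (θ * Complex.I) • b)
        = 2 * Real.pi * M := by rw [hM, two_pi_cancel]
    have hM0 : M < 0 := by
      have : ∫ θ in (0 : ℝ)..(2 * Real.pi), rho m (a + Complex.exp (θ * Complex.I) • b) <
          ∫ _ in (0 : ℝ)..(2 * Real.pi), (0 : ℝ) := by
        apply intervalIntegral.integral_lt_integral_of_continuousOn_of_le_of_exists_lt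
          (by positivity) hcont.continuousOn continuousOn_const
        · intro θ _; exact (hcirc θ).le
        · exact ⟨0, ⟨le_rfl, by positivity⟩, hcirc 0⟩
      rw [hMint] at this
      simp only [intervalIntegral.integral_zero] at this
      by_contra hcon
      push Not at hcon
      have : 0 ≤ 2 * Real.pi * M := by positivity
      linarith
    have htan : ∀ x : ℝ, x < 0 → -M⁻¹ + (x - M) / M ^ 2 ≤ -x⁻¹ := by
      intro x hx
      have h1 : -x⁻¹ - (-M⁻¹ + (x - M) / M ^ 2) = -(x - M) ^ 2 / (x * M ^ 2) := by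
        field_simp [hx.ne, hM0.ne]
        ring
      have h2 : 0 ≤ -(x - M) ^ 2 / (x * M ^ 2) := by
        rw [neg_div, neg_nonneg]
        apply div_nonpos_of_nonneg_of_nonpos (by positivity)
        have : 0 < M ^ 2 := pow_pos_of_neg hM0
        nlinarith
      linarith
    have hinv : Continuous fun θ : ℝ => -(rho m (a + Complex.exp (θ * Complex.I) • b))⁻¹ :=
      (hcont.inv₀ fun θ => (hcirc θ).ne).neg
    have h3 : ∫ θ in (0 : ℝ)..(2 * Real.pi),
        (-M⁻¹ + (rho m (a + Complex.exp (θ * Complex.I) • b) - M) / M ^ 2) ≤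
        ∫ θ in (0 : ℝ)..(2 * Real.pi), -(rho m (a + Complex.exp (θ * Complex.I) • b))⁻¹ := by
      apply intervalIntegral.integral_mono_on (by positivity)
      · exact Continuous.intervalIntegrable (by fun_prop) _ _
      · exact hinv.intervalIntegrable _ _
      · intro θ _; exact htan _ (hcirc θ)
    have h4 : ∫ θ in (0 : ℝ)..(2 * Real.pi),
        (-M⁻¹ + (rho m (a + Complex.exp (θ * Complex.I) • b) - M) / M ^ 2) =
        2 * Real.pi * (-M⁻¹) := by
      rw [intervalIntegral.integral_add intervalIntegrable_const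
        (Continuous.intervalIntegrable (by fun_prop) _ _), intervalIntegral.integral_div,
        intervalIntegral.integral_sub (hcont.intervalIntegrable _ _) intervalIntegrable_const,
        hMint, intervalIntegral.integral_const, intervalIntegral.integral_const]
      simp
    rw [h4] at h3
    have h5 : -(rho m a)⁻¹ ≤ -M⁻¹ := by
      rw [neg_le_neg_iff]
      exact (inv_le_inv_of_neg hM0 (lt_of_le_of_lt hMa hM0)).mpr hMa
    calc -(rho m a)⁻¹ ≤ -M⁻¹ := h5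
      _ = 1 / (2 * Real.pi) * (2 * Real.pi * (-M⁻¹)) := by field_simp
      _ ≤ _ := by gcongr
  · intro c
    rcases le_or_gt c 0 with hc | hc
    · have : {x ∈ Dom m | -(rho m x)⁻¹ ≤ c} = ∅ := by
        ext x
        simp only [mem_ofPred_eq, mem_empty_iff_false, iff_false, not_and, not_le]
        intro hx
        have : rho m x < 0 := hx
        have := inv_lt_zero.mpr this
        linarith
      rw [this]; exact isCompact_empty
    · have : {x ∈ Dom m | -(rho m x)⁻¹ ≤ c} = {x | rho m x ≤ -c⁻¹} := by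
        ext x
        simp only [mem_ofPred_eq]
        have hci : 0 < c⁻¹ := inv_pos.mpr hc
        constructor
        · rintro ⟨hx, h⟩
          have hx' : rho m x < 0 := hx
          have h1 : (-(rho m x))⁻¹ ≤ c := by rw [inv_neg]; exact h
          have h2 := (inv_le_comm₀ (by linarith) hc).mp h1
          linarith
        · intro h
          have hx' : rho m x < 0 := by linarith
          refine ⟨hx', ?_⟩
          have h1 : c⁻¹ ≤ -(rho m x) := by linarith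
          have h2 := (inv_le_comm₀ hc (by linarith)).mp h1
          rw [inv_neg] at h2
          exact h2
      rw [this]
      apply Metric.isCompact_of_isClosed_isBounded
      · exact isClosed_le (rho_continuous m) continuous_const
      · apply (bounded_dom m).subset
        intro x hx
        have hci : 0 < c⁻¹ := inv_pos.mpr hc
        have hx' : rho m x ≤ -c⁻¹ := hx
        show rho m x < 0
        linarith

/-- the values of `rho` on a point with prescribed first three coordinates -/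
noncomputable def pt (m : ℕ) (a b c : ℂ) : Cn (m + 3) :=
  EuclideanSpace.single 0 a + EuclideanSpace.single 1 b + EuclideanSpace.single 2 c

theorem pt_zero (m : ℕ) (a b c : ℂ) : pt m a b c 0 = a := by
  simp [pt, (one_ne_zero' m).symm, (two_ne_zero' m).symm]

theorem pt_one (m : ℕ) (a b c : ℂ) : pt m a b c 1 = b := by
  simp [pt, (one_ne_zero' m), (one_ne_two' m)]

theorem pt_two (m : ℕ) (a b c : ℂ) : pt m a b c 2 = c := by
  simp [pt, (two_ne_zero' m), (one_ne_two' m).symm]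

theorem pt_addNat (m : ℕ) (a b c : ℂ) (j : Fin m) : pt m a b c (j.addNat 3) = 0 := by
  simp [pt, addNat_ne_zero' m j, addNat_ne_one' m j, addNat_ne_two' m j]

theorem rho_pt (m : ℕ) (a b c : ℂ) :
    rho m (pt m a b c) = ‖a - 1‖ ^ 2 + ‖b * c‖ ^ 2 + ‖b‖ ^ 6 + ‖c‖ ^ 6 - 1 := by
  unfold rho
  rw [pt_zero, pt_one, pt_two]
  simp [pt_addNat]

theorem pt_differentiable (m : ℕ) {a b c : ℂ → ℂ} (ha : Differentiable ℂ a)
    (hb : Differentiable ℂ b) (hc : Differentiable ℂ c) :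
    Differentiable ℂ (fun ζ => pt m (a ζ) (b ζ) (c ζ)) := by
  rw [differentiable_euclidean]
  intro i
  rcases fin_cases' i with h | h | h | ⟨j, h⟩
  · subst h; simp only [pt_zero]; exact ha
  · subst h; simp only [pt_one]; exact hb
  · subst h; simp only [pt_two]; exact hc
  · subst h; simp only [pt_addNat]; exact differentiable_const _

theorem lempert_le {n : ℕ} {D : Set (Cn n)} {z w : Cn n} {f : ℂ → Cn n} {l : ℂ}
    (hf : DifferentiableOn ℂ f (ball 0 1)) (hfD : MapsTo f (ball 0 1) D) (hl : ‖l‖ < 1)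
    (h0 : f 0 = z) (h1 : f l = w) : lempert D z w ≤ ‖l‖ := by
  apply csInf_le
  · exact ⟨0, by rintro r ⟨f, l, _, _, _, _, _, rfl⟩; exact norm_nonneg _⟩
  · exact ⟨f, l, hf, hfD, hl, h0, h1, rfl⟩

/-- the key lower bound -/
theorem key_lower {m : ℕ} {f : ℂ → Cn (m + 3)} {l : ℂ} (hf : DifferentiableOn ℂ f (ball 0 1))
    (hfD : MapsTo f (ball 0 1) (Dom m)) (hl : ‖l‖ ≤ 1 / 2) {δ t : ℝ} (hδ0 : 0 < δ) (hδ1 : δ < 1)
    (h0 : f 0 = pt m δ 0 0) (h1 : f l = pt m δ t t) : t ^ 4 ≤ 81 * δ * ‖l‖ ^ 4 := by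
  have hpi := Real.pi_pos
  have hco : ∀ i, DifferentiableOn ℂ (fun ζ => f ζ i) (ball 0 1) := fun i => by
    rw [differentiableOn_euclidean] at hf
    exact hf i
  have hnb : ball (0 : ℂ) 1 ∈ 𝓝 (0 : ℂ) := ball_mem_nhds 0 one_pos
  set g1 : ℂ → ℂ := dslope (fun ζ => f ζ 1) 0 with hg1
  set g2 : ℂ → ℂ := dslope (fun ζ => f ζ 2) 0 with hg2
  have hd1 : DifferentiableOn ℂ g1 (ball 0 1) := (Complex.differentiableOn_dslope hnb).mpr (hco 1)
  have hd2 : DifferentiableOn ℂ g2 (ball 0 1) := (Complex.differentiableOn_dslope hnb).mpr (hco 2)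
  have hm1 : ∀ ζ, ζ * g1 ζ = f ζ 1 := by
    intro ζ
    have := sub_smul_dslope (fun ζ => f ζ 1) 0 ζ
    rw [h0, pt_one] at this
    simpa using this
  have hm2 : ∀ ζ, ζ * g2 ζ = f ζ 2 := by
    intro ζ
    have := sub_smul_dslope (fun ζ => f ζ 2) 0 ζ
    rw [h0, pt_two] at this
    simpa using this
  set r : ℝ := 3 / 4 with hr
  have hr0 : 0 < r := by norm_num [hr]
  have hsub : closedBall (0 : ℂ) r ⊆ ball 0 1 := closedBall_subset_ball (by norm_num [hr])
  have hdc : ∀ G : ℂ → ℂ, DifferentiableOn ℂ G (ball 0 1) → DiffContOnCl ℂ G (ball 0 r) := by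
    intro G hG
    apply DifferentiableOn.diffContOnCl
    rw [closure_ball _ hr0.ne']
    exact hG.mono hsub
  -- the circle
  have hcirc : ∀ θ : ℝ, (r : ℂ) * Complex.exp (θ * Complex.I) ∈ ball (0 : ℂ) 1 := by
    intro θ
    apply hsub
    rw [mem_closedBall_zero_iff, norm_mul, Complex.norm_exp_ofReal_mul_I, mul_one,
      Complex.norm_real, Real.norm_of_nonneg hr0.le]
  have hcircn : ∀ θ : ℝ, ‖(r : ℂ) * Complex.exp (θ * Complex.I)‖ = r := by
    intro θ
    rw [norm_mul, Complex.norm_exp_ofReal_mul_I, mul_one,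
      Complex.norm_real, Real.norm_of_nonneg hr0.le]
  have hcc : ∀ G : ℂ → ℂ, DifferentiableOn ℂ G (ball 0 1) →
      Continuous (fun θ : ℝ => ‖G (r * Complex.exp (θ * Complex.I))‖) := fun G hG =>
    (hG.continuousOn.comp_continuous (by fun_prop) hcirc).norm
  have hF0d : DifferentiableOn ℂ (fun ζ => (f ζ 0 - 1) ^ 2) (ball 0 1) := ((hco 0).sub_const 1).pow 2
  have hHd : DifferentiableOn ℂ (fun ζ => (g1 ζ * g2 ζ) ^ 2) (ball 0 1) := (hd1.mul hd2).pow 2
  have hmean0 := cauchy_mean_zero hr0 (hdc _ hF0d)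
  have hmeanl := cauchy_mean (α := l) (hdc _ hHd) (lt_of_le_of_lt hl (by norm_num [hr]))
  -- pointwise inequality
  have hpt : ∀ θ : ℝ, r ^ 4 * ‖(g1 (r * Complex.exp (θ * Complex.I)) *
      g2 (r * Complex.exp (θ * Complex.I))) ^ 2‖ ≤
      1 - ‖(f (r * Complex.exp (θ * Complex.I)) 0 - 1) ^ 2‖ := by
    intro θ
    set ζ := (r : ℂ) * Complex.exp (θ * Complex.I) with hζ
    have hD : rho m (f ζ) < 0 := hfD (hcirc θ)
    unfold rho at hD
    have e : ‖f ζ 1 * f ζ 2‖ ^ 2 = r ^ 4 * ‖(g1 ζ * g2 ζ) ^ 2‖ := by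
      have hζn : ‖ζ‖ = r := hcircn θ
      have e1 : ‖ζ * g1 ζ * (ζ * g2 ζ)‖ = r ^ 2 * ‖g1 ζ * g2 ζ‖ := by
        simp only [norm_mul, hζn]; ring
      rw [← hm1, ← hm2, e1, norm_pow]
      ring
    rw [e] at hD
    rw [norm_pow (f ζ 0 - 1)]
    have h3 : 0 ≤ ‖f ζ 1‖ ^ 6 := by positivity
    have h4 : 0 ≤ ‖f ζ 2‖ ^ 6 := by positivity
    have h5 : 0 ≤ ∑ j : Fin m, ‖f ζ (j.addNat 3)‖ ^ 2 := by positivity
    linarith
  have hint : r ^ 4 * ∫ θ in (0 : ℝ)..(2 * Real.pi),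
      ‖(g1 (r * Complex.exp (θ * Complex.I)) * g2 (r * Complex.exp (θ * Complex.I))) ^ 2‖ ≤
      2 * Real.pi - ∫ θ in (0 : ℝ)..(2 * Real.pi),
        ‖(f (r * Complex.exp (θ * Complex.I)) 0 - 1) ^ 2‖ := by
    have h6 : ∫ θ in (0 : ℝ)..(2 * Real.pi), r ^ 4 *
        ‖(g1 (r * Complex.exp (θ * Complex.I)) * g2 (r * Complex.exp (θ * Complex.I))) ^ 2‖ ≤
        ∫ θ in (0 : ℝ)..(2 * Real.pi),
        (1 - ‖(f (r * Complex.exp (θ * Complex.I)) 0 - 1) ^ 2‖) := by
      apply intervalIntegral.integral_mono_on (by positivity)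
      · exact ((hcc _ hHd).const_mul _).intervalIntegrable _ _
      · exact (continuous_const.sub (hcc _ hF0d)).intervalIntegrable _ _
      · intro θ _; exact hpt θ
    rw [intervalIntegral.integral_const_mul, intervalIntegral.integral_sub
      intervalIntegrable_const ((hcc _ hF0d).intervalIntegrable _ _),
      intervalIntegral.integral_const] at h6
    simpa using h6
  set J := ∫ θ in (0 : ℝ)..(2 * Real.pi),
      ‖(g1 (r * Complex.exp (θ * Complex.I)) * g2 (r * Complex.exp (θ * Complex.I))) ^ 2‖ with hJ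
  set K := ∫ θ in (0 : ℝ)..(2 * Real.pi),
        ‖(f (r * Complex.exp (θ * Complex.I)) 0 - 1) ^ 2‖ with hK
  have hK0 : 2 * Real.pi * (1 - δ) ^ 2 ≤ K := by
    have e : ‖(f 0 0 - 1) ^ 2‖ = (1 - δ) ^ 2 := by
      rw [h0, pt_zero, norm_pow]
      have : ((δ : ℂ) - 1) = ((δ - 1 : ℝ) : ℂ) := by push_cast; rfl
      rw [this, Complex.norm_real, Real.norm_eq_abs, sq_abs]; ring
    rw [e] at hmean0
    calc 2 * Real.pi * (1 - δ) ^ 2 ≤ 2 * Real.pi * (1 / (2 * Real.pi) * K) := by gcongr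
      _ = K := two_pi_cancel K
  have hJ0 : r ^ 4 * J ≤ 2 * Real.pi * (2 * δ) := by
    calc r ^ 4 * J ≤ 2 * Real.pi - K := hint
      _ ≤ 2 * Real.pi - 2 * Real.pi * (1 - δ) ^ 2 := by linarith
      _ = 2 * Real.pi * (2 * δ) - 2 * Real.pi * δ ^ 2 := by ring
      _ ≤ 2 * Real.pi * (2 * δ) := by
          have : 0 ≤ 2 * Real.pi * δ ^ 2 := by positivity
          linarith
  have hJn : 0 ≤ J := by
    rw [hJ]
    apply intervalIntegral.integral_nonneg (by positivity)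
    intro θ _; positivity
  have hfac : r / (r - ‖l‖) ≤ 3 := by
    rw [div_le_iff₀ (by rw [hr]; linarith)]
    rw [hr]; linarith
  have hH : ‖(g1 l * g2 l) ^ 2‖ ≤ 3 * (1 / (2 * Real.pi) * J) := by
    refine hmeanl.trans ?_
    have : 0 ≤ 1 / (2 * Real.pi) * J := by positivity
    gcongr
  have hlast : t ^ 4 = ‖l‖ ^ 4 * ‖(g1 l * g2 l) ^ 2‖ := by
    have h7 : (l * g1 l) * (l * g2 l) = (t : ℂ) * t := by
      rw [hm1, hm2, h1, pt_one, pt_two]
    have h8 : ‖(l * g1 l) * (l * g2 l)‖ ^ 2 = t ^ 4 := by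
      rw [h7, norm_mul, Complex.norm_real, Real.norm_eq_abs]
      have : |t| * |t| = t ^ 2 := by rw [← pow_two, sq_abs]
      rw [this]; ring
    rw [← h8, norm_pow, norm_mul, norm_mul, norm_mul, norm_mul]
    ring
  have hr4 : r ^ 4 = 81 / 256 := by rw [hr]; norm_num
  have hJ2 : 1 / (2 * Real.pi) * J ≤ (256 / 81) * (2 * δ) := by
    have h9 : J ≤ 2 * Real.pi * ((256 / 81) * (2 * δ)) := by
      rw [hr4] at hJ0
      nlinarith
    calc 1 / (2 * Real.pi) * J ≤ 1 / (2 * Real.pi) * (2 * Real.pi * ((256 / 81) * (2 * δ))) := by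
          gcongr
      _ = _ := by field_simp
  rw [hlast]
  have h10 : ‖(g1 l * g2 l) ^ 2‖ ≤ 81 * δ := by
    refine hH.trans ?_
    nlinarith
  calc ‖l‖ ^ 4 * ‖(g1 l * g2 l) ^ 2‖ ≤ ‖l‖ ^ 4 * (81 * δ) := by gcongr
    _ = 81 * δ * ‖l‖ ^ 4 := by ring

theorem LSet_conv {n : ℕ} {D : Set (Cn n)} (hD : IsOpen D) (hc : IsConnected D) {z w : Cn n}
    (hz : z ∈ D) (hw : w ∈ D) : {r | ∃ (f : ℂ → Cn n) (l : ℂ), DifferentiableOn ℂ f (ball 0 1) ∧
    MapsTo f (ball 0 1) D ∧ ‖l‖ < 1 ∧ f 0 = z ∧ f l = w ∧ r = ‖l‖}.Nonempty := by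
  obtain ⟨_, f, l, h1, h2, h3, h4, h5, _⟩ := LSet_nonempty hD hc hz hw
  exact ⟨‖l‖, f, l, h1, h2, h3, h4, h5, rfl⟩

/-- the three points -/
theorem three_points (m : ℕ) {s : ℝ} (hs0 : 0 < s) (hs1 : s ≤ 1 / 2) :
    ∃ x ∈ Dom m, ∃ y ∈ Dom m, ∃ z ∈ Dom m, lempert (Dom m) x y ≤ s ^ 2 / 2 ∧
      lempert (Dom m) y z ≤ s ^ 2 / 2 ∧ s / 6 ≤ lempert (Dom m) x z := by
  set δ : ℝ := s ^ 12 with hδ
  set t : ℝ := s ^ 4 / 2 with ht
  have hs12 : s ^ 12 ≤ (1 / 2) ^ 12 := pow_le_pow_left₀ hs0.le hs1 12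
  have hδ0 : 0 < δ := by positivity
  have hδ1 : δ ≤ 1 / 4096 := by rw [hδ]; norm_num at hs12; linarith
  have ht0 : 0 < t := by positivity
  -- membership criterion
  have hmem : ∀ b c : ℂ, ‖b‖ ^ 2 * ‖c‖ ^ 2 + ‖b‖ ^ 6 + ‖c‖ ^ 6 ≤ 3 / 2 * δ →
      pt m δ b c ∈ Dom m := by
    intro b c h
    show rho m _ < 0
    rw [rho_pt, norm_mul, mul_pow]
    have : ((δ : ℂ) - 1) = ((δ - 1 : ℝ) : ℂ) := by push_cast; rfl
    rw [this, Complex.norm_real, Real.norm_eq_abs, sq_abs]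
    nlinarith
  have hs2 : s ^ 2 ≤ 1 / 4 := by nlinarith
  have ht6 : t ^ 6 ≤ δ / 8 := by
    have e : t ^ 6 = s ^ 12 * (s ^ 12 / 64) := by rw [ht]; ring
    rw [e, hδ]
    have : s ^ 12 / 64 ≤ 1 / 8 := by norm_num at hs12; linarith
    nlinarith [pow_pos hs0 12]
  have ht2 : t ^ 2 * s ^ 4 = δ / 4 := by rw [ht, hδ]; ring
  have hts : t ^ 2 * t ^ 2 ≤ δ / 4 := by
    rw [← ht2]
    have : t ^ 2 ≤ s ^ 4 := by
      rw [ht]
      have : s ^ 8 ≤ s ^ 4 := pow_le_pow_of_le_one hs0.le (by linarith) (by norm_num)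
      nlinarith [pow_pos hs0 8]
    nlinarith [pow_pos ht0 2]
  have hs26 : (s ^ 2) ^ 6 = δ := by rw [hδ]; ring
  have hx : pt m δ 0 0 ∈ Dom m := hmem 0 0 (by simp; positivity)
  have hntt : ‖((t : ℝ) : ℂ)‖ = t := by rw [Complex.norm_real, Real.norm_of_nonneg ht0.le]
  have hy : pt m δ t 0 ∈ Dom m := hmem t 0 (by
    rw [hntt, norm_zero]; norm_num; linarith)
  have hz : pt m δ t t ∈ Dom m := hmem t t (by
    rw [hntt]; linarith)
  have hs2c : ((s ^ 2 : ℝ) : ℂ) ≠ 0 := by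
    have : (s ^ 2 : ℝ) ≠ 0 := by positivity
    exact_mod_cast this
  have hns2 : ‖((s ^ 2 : ℝ) : ℂ)‖ = s ^ 2 := by
    rw [Complex.norm_real, Real.norm_of_nonneg (by positivity)]
  have hl : ‖((t / s ^ 2 : ℝ) : ℂ)‖ = s ^ 2 / 2 := by
    rw [Complex.norm_real, Real.norm_of_nonneg (by positivity), ht]
    field_simp
  have hll : ((s ^ 2 : ℝ) : ℂ) * ((t / s ^ 2 : ℝ) : ℂ) = t := by
    rw [← Complex.ofReal_mul]
    congr 1
    field_simp
  refine ⟨_, hx, _, hy, _, hz, ?_, ?_, ?_⟩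
  · rw [← hl]
    refine lempert_le (f := fun ζ => pt m δ (((s ^ 2 : ℝ) : ℂ) * ζ) 0)
      (pt_differentiable m (by fun_prop) (by fun_prop) (by fun_prop)).differentiableOn ?_ ?_ ?_ ?_
    · intro ζ hζ
      rw [mem_ball_zero_iff] at hζ
      apply hmem
      have : ‖((s ^ 2 : ℝ) : ℂ) * ζ‖ ≤ s ^ 2 := by
        rw [norm_mul, hns2]; nlinarith [norm_nonneg ζ, pow_pos hs0 2]
      have h6 : ‖((s ^ 2 : ℝ) : ℂ) * ζ‖ ^ 6 ≤ δ := by
        rw [← hs26]; gcongr
      rw [norm_zero]; norm_num at h6 ⊢; linarith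
    · rw [hl]; linarith
    · simp
    · simp only [hll]
  · rw [← hl]
    refine lempert_le (f := fun ζ => pt m δ t (((s ^ 2 : ℝ) : ℂ) * ζ))
      (pt_differentiable m (by fun_prop) (by fun_prop) (by fun_prop)).differentiableOn ?_ ?_ ?_ ?_
    · intro ζ hζ
      rw [mem_ball_zero_iff] at hζ
      apply hmem
      have h0 : ‖((s ^ 2 : ℝ) : ℂ) * ζ‖ ≤ s ^ 2 := by
        rw [norm_mul, hns2]; nlinarith [norm_nonneg ζ, pow_pos hs0 2]
      have h6 : ‖((s ^ 2 : ℝ) : ℂ) * ζ‖ ^ 6 ≤ δ := by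
        rw [← hs26]; gcongr
      have h2 : t ^ 2 * ‖((s ^ 2 : ℝ) : ℂ) * ζ‖ ^ 2 ≤ δ / 4 := by
        rw [← ht2]
        have : ‖((s ^ 2 : ℝ) : ℂ) * ζ‖ ^ 2 ≤ (s ^ 2) ^ 2 := by gcongr
        have e4 : (s ^ 2) ^ 2 = s ^ 4 := by ring
        rw [e4] at this
        gcongr
      rw [hntt]; linarith
    · rw [hl]; linarith
    · simp
    · simp only [hll]
  · apply le_csInf (LSet_conv (isOpen_dom m) (connected_dom m) hx hz)
    rintro r ⟨f, l, hf, hfD, hl1, h0, h1, rfl⟩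
    by_contra hcon
    push Not at hcon
    have hl2 : ‖l‖ ≤ 1 / 2 := by linarith
    have h2 := key_lower hf hfD hl2 hδ0 (by linarith) h0 h1
    have h3 : 81 * δ * ‖l‖ ^ 4 < 81 * δ * (s / 6) ^ 4 := by gcongr
    have h4 : 81 * δ * (s / 6) ^ 4 = s ^ 16 / 16 := by rw [hδ]; ring
    have h5 : t ^ 4 = s ^ 16 / 16 := by rw [ht]; ring
    linarith

/-- For every `n = m + 3 ≥ 3` the domain `|z₁-1|² + |z₂z₃|² + |z₂|⁶ + |z₃|⁶ + |z₄|² + ... < 1`
is a bounded pseudoconvex domain of `ℂ^n` with real-analytic boundary whose Lempert function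
satisfies no quasi triangle inequality. -/
theorem result (m : ℕ) :
    IsOpen (Dom m) ∧ IsConnected (Dom m) ∧ Bornology.IsBounded (Dom m) ∧
      AnalyticBoundary (Dom m) ∧ Pseudoconvex (Dom m) ∧
      ∀ C : ℝ, ∃ x ∈ Dom m, ∃ y ∈ Dom m, ∃ z ∈ Dom m,
        C * (lempert (Dom m) x y + lempert (Dom m) y z) < lempert (Dom m) x z := by
  refine ⟨isOpen_dom m, connected_dom m, bounded_dom m, boundary_dom m, pseudoconvex_dom m, ?_⟩
  intro C
  set C' : ℝ := max C 1 with hC'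
  have hC1 : 1 ≤ C' := le_max_right _ _
  have hCC : C ≤ C' := le_max_left _ _
  obtain ⟨x, hx, y, hy, z, hz, h1, h2, h3⟩ := three_points m (s := 1 / (7 * C')) (by positivity)
    (by
      rw [div_le_div_iff₀ (by positivity) (by norm_num)]
      linarith)
  refine ⟨x, hx, y, hy, z, hz, ?_⟩
  have hnn : ∀ a b, 0 ≤ lempert (Dom m) a b := by
    intro a b
    apply Real.sInf_nonneg
    rintro r ⟨f, l, _, _, _, _, _, rfl⟩
    exact norm_nonneg _
  calc C * (lempert (Dom m) x y + lempert (Dom m) y z)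
      ≤ C' * (lempert (Dom m) x y + lempert (Dom m) y z) := by
        have := hnn x y
        have := hnn y z
        gcongr
    _ ≤ C' * ((1 / (7 * C')) ^ 2 / 2 + (1 / (7 * C')) ^ 2 / 2) := by gcongr
    _ = (1 / (7 * C')) / 7 := by field_simp; norm_num
    _ < (1 / (7 * C')) / 6 := by
        have : 0 < 1 / (7 * C') := by positivity
        linarith
    _ ≤ _ := h3

end Pool.Agent.Results.MP_68919f_an.NoQuasiTriangle
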